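import Pool.Agent.Q17.ML2.Stm
import Pool.Agent.Q24.ML.Iff

/-!
# Project CA: permutation groups with a transposition, and Galois groups: statements
-/

set_option autoImplicit false

namespace Pool.Agent.Q17.ML2

/-- BL: transitive permutation groups with blocks of size two and a transposition are wreath products.
PROOF. Let `H` be the image of `G` in the permutations of the set `D = Quotient B` of the blocks
(a subgroup of `Equiv.Perm D`, or the quotient of `G` by the kernel; it is finite), `x₀` one block, `W` its
stabilizer in `H` and `U` the stabilizer in `H` of the class of `C` which contains it (`H` acts on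
`Quotient C`, which is also a quotient of `D` as `B ≤ C`). `W ≤ U`. `H` is transitive on `D` and on
`Quotient C`, so `[H : W] = |D| = n / 2`, `[H : U] = |Quotient C|`. The normal core of `U` acts trivially
on `Quotient C`; so by the last hypothesis it is trivial. Let `(a b)` be the transposition in `G`. If
`a`, `b` are in different blocks and `a'` is the other point of the block of `a`, then `(a b)` maps the
block `{a, a'}` to `{b, a'}`, which is not a block. So `{a, b}` is a block, and by transitivity `G`
contains all transpositions of the blocks, hence all permutations which map every block to itself.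
Choose `f : Fin n ≃ (H ⧸ W) × Bool` such that the first component of `f i` is the coset of the `h` which
map `x₀` to the block of `i`. If `π ∈ G` and `h` is its image in `H` then `(f (π i)).1 = h • (f i).1`.
Conversely, if this holds for `π` and all `i`, and `g ∈ G` has the image `h`, then `g⁻¹ π` maps every
block to itself, so it is in `G`. -/
def S_BL : Prop :=
  ∀ (n : ℕ) (G : Subgroup (Equiv.Perm (Fin n))) (B C : Setoid (Fin n)), 1 ≤ n →
    (∀ i j : Fin n, ∃ g ∈ G, g i = j) →
    (∀ g ∈ G, ∀ i j, B i j → B (g i) (g j)) → (∀ g ∈ G, ∀ i j, C i j → C (g i) (g j)) →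
    B ≤ C → (∀ i, {j | B i j}.ncard = 2) → (∃ a b, a ≠ b ∧ Equiv.swap a b ∈ G) →
    (∀ g ∈ G, (∀ i, C i (g i)) → ∀ i, B i (g i)) →
    ∃ (H : Type) (_ : Group H) (_ : Finite H) (W U : Subgroup H), IsC2WrS H W G ∧ W ≤ U ∧
      U.normalCore = ⊥ ∧ n = 2 * W.index ∧ U.index = Nat.card (Quotient C) ∧
      ∃ f : G →* H, Function.Surjective f

/-- RG. PROOF. `act`, `ker_act` in `Pool/Agent/TH365/J3099.lean`: by `e` the image of `Gal(Ω/K)` in the
permutations of the embeddings of `L` is isomorphic to `G`; the kernel is the fixing subgroup of the
normal closure `N` of `L`, and restriction to `N` is surjective with the same kernel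
(`IntermediateField.restrictNormalHom_ker`, `AlgEquiv.restrictNormalHom_surjective`). So
`Gal(N/K) ≃* G`. -/
def S_RG : Prop :=
  ∀ (K : Type) [Field K] [NumberField K] (n : ℕ) (G : Subgroup (Equiv.Perm (Fin n)))
    (L : IntermediateField K (AlgebraicClosure K)), FiniteDimensional K L →
    Pool.Agent.TH444.ML.HasGp K G L → Pool.Agent.Q24.ML.Real K G

/-- CV. PROOF. `MulAction.equivQuotientStabilizer`. -/
def S_CV : Prop :=
  ∀ (H Δ : Type) [Group H] [Finite H] [MulAction H Δ] [MulAction.IsPretransitive H Δ] (x₀ : Δ)
    (n : ℕ) (G : Subgroup (Equiv.Perm (Fin n))) (f : Fin n ≃ Δ × Bool),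
    (∀ π : Equiv.Perm (Fin n), π ∈ G ↔ ∃ h : H, ∀ i, (f (π i)).1 = h • (f i).1) →
    IsC2WrS H (MulAction.stabilizer H x₀) G

end Pool.Agent.Q17.ML2
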