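import Pool.Agent.Q17.ML2.Main
import Pool.Agent.Q17.ML2.Stm2

/-!
# The asymptotic formula for `C₂ ≀ (H, H ⧸ W)`
-/

set_option autoImplicit false
set_option linter.unusedSectionVars false

open NumberField Filter Topology

namespace Pool.Agent.Q17.ML2

open Pool.Agent.TH444.ML (dsc dsc_eq Cnt HasGp Gal nf_of_fd card_quot)

/-- The parts. -/
structure Parts : Prop where
  spl : S_SPL
  sv : S_SV
  nf : S_NF
  e1 : S_E1
  sb : S_SB
  bs : S_BS
  dg : S_DG
  wi : S_WI
  mu : S_MU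
  wc : S_WC
  fg : S_FG
  pg : S_PG

variable (r : Parts)

theorem CV : S_CV := by
  intro H Δ _ _ _ _ x₀ n G f hf
  have hb : Function.Bijective (MulAction.ofQuotientStabilizer H x₀) := by
    refine ⟨MulAction.injective_ofQuotientStabilizer H x₀, fun x => ?_⟩
    obtain ⟨g, rfl⟩ := MulAction.exists_smul_eq H x₀ x
    exact ⟨(g : H ⧸ MulAction.stabilizer H x₀), MulAction.ofQuotientStabilizer_mk H x₀ g⟩
  let e' : (H ⧸ MulAction.stabilizer H x₀) ≃ Δ := Equiv.ofBijective _ hb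
  have he' : ∀ (h : H) (x : H ⧸ MulAction.stabilizer H x₀), e' (h • x) = h • e' x :=
    fun h x => MulAction.ofQuotientStabilizer_smul H x₀ h x
  let e := e'.symm
  have he : ∀ (h : H) (x : Δ), e (h • x) = h • e x := by
    intro h x
    apply e'.injective
    rw [he']
    change e' (e'.symm _) = h • e' (e'.symm _)
    rw [Equiv.apply_symm_apply, Equiv.apply_symm_apply]
  refine ⟨f.trans (e.prodCongr (Equiv.refl Bool)), fun π => ?_⟩
  rw [hf]
  refine exists_congr fun h => forall_congr' fun i => ?_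
  simp only [Equiv.trans_apply, Equiv.prodCongr_apply, Prod.map_fst]
  rw [← he]
  exact e.injective.eq_iff.symm

include r

theorem sieveS : SieveS := r.sv r.spl

theorem badSmallS : BadSmallS :=
  r.bs Pool.Agent.TH263.J3086.discQuad Pool.Agent.TH914.J3087.kumP r.nf (r.sb r.e1) (sieveS r)

theorem cnt_eqS (K : Type) [Field K] [NumberField K] {H : Type} [Group H] [Finite H]
    {W : Subgroup H} {n : ℕ} {G : Subgroup (Equiv.Perm (Fin n))} (hG : IsC2WrS H W G) (X : ℝ) :
    Cnt K G X = TTS K (AlgebraicClosure K) H W (X * ((|discr K| : ℤ) : ℝ) ^ n) := by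
  obtain ⟨hn, -, -, hp⟩ := r.pg H W n G hG
  have hpos : 0 < W.index := Nat.pos_of_ne_zero Subgroup.index_ne_zero_of_finite
  ext L
  constructor
  · rintro ⟨h1, h2, h3, h4⟩
    refine ⟨by rw [h1, hn], (hp K L).1 h2, ?_⟩
    rw [dsc_eq L]
    exact h4
  · rintro ⟨h1, h2, h3⟩
    have hfd : FiniteDimensional K L := FiniteDimensional.of_finrank_pos (by omega)
    have hnf : NumberField L := nf_of_fd L
    refine ⟨by rw [h1, hn], (hp K L).2 h2, hnf, ?_⟩
    rw [dsc_eq L] at h3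
    exact h3

theorem asympS (K : Type) [Field K] [NumberField K] (H : Type) [Group H] [Finite H]
    (W U : Subgroup H) (hWU : W ≤ U) (hU : U.normalCore = ⊥)
    (hc : 8 * U.index * (U.index + 1) ≤ W.index)
    (hne : (Gal K (AlgebraicClosure K) H).Nonempty) {n : ℕ} (G : Subgroup (Equiv.Perm (Fin n)))
    (hG : IsC2WrS H W G) :
    (∀ X : ℝ, 0 < X → (Cnt K G X).Finite) ∧ ∃ c : ℝ, 0 < c ∧
      Tendsto (fun X : ℝ => (Set.ncard (Cnt K G X) : ℝ) / X) atTop (𝓝 c) := by
  have hW : W.normalCore = ⊥ := by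
    rw [eq_bot_iff, ← hU]
    exact Subgroup.normalCore_mono hWU
  have hd : 0 < ((|discr K| : ℤ) : ℝ) ^ n := by
    have : (0 : ℤ) < |discr K| := abs_pos.2 (discr_ne_zero K)
    have : (0 : ℝ) < ((|discr K| : ℤ) : ℝ) := by exact_mod_cast this
    positivity
  have hne' : (GalS K (AlgebraicClosure K) H W).Nonempty :=
    (r.dg K (AlgebraicClosure K) H W hW).2 hne
  have h := main_asympS (K := K) (Ω := AlgebraicClosure K) (H := H) (W := W)
    (Pool.Agent.TH444.ML.quadLim Pool.Agent.TH444.ML.rest) Pool.Agent.TH444.ML.quadPos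
    Pool.Agent.TH444.ML.quadUnif (badSmallS r) (r.wi r.dg) (r.mu r.dg) r.dg hW
    (r.fg r.dg Pool.Agent.TH979.J3100.hermiteRel K (AlgebraicClosure K) H W U hWU hU hc) hne' _ hd
  simp only [cnt_eqS r K hG]
  exact h

/-- isomorphic fields have the same properties -/
theorem tt_isoS {K Ω H : Type} [Field K] [NumberField K] [Field Ω] [Algebra K Ω] [Group H]
    [Finite H] {W : Subgroup H} {Z : ℝ}
    {L L' : IntermediateField K Ω} (h : L ∈ TTS K Ω H W Z) (ε : L ≃ₐ[K] L') :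
    L' ∈ TTS K Ω H W Z := by
  obtain ⟨h1, ⟨e, he⟩, h3⟩ := h
  have hpos : 0 < W.index := Nat.pos_of_ne_zero Subgroup.index_ne_zero_of_finite
  have hfd : FiniteDimensional K L := FiniteDimensional.of_finrank_pos (by omega)
  have hnf : NumberField L := nf_of_fd L
  have hfd' : FiniteDimensional K L' := Module.Finite.equiv ε.toLinearEquiv
  have hnf' : NumberField L' := nf_of_fd L'
  refine ⟨?_, ?_, ?_⟩
  · rw [← h1]; exact (ε.toLinearEquiv.finrank_eq).symm
  · let E : (L' →ₐ[K] Ω) ≃ (L →ₐ[K] Ω) :=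
      { toFun := fun φ => φ.comp ε.toAlgHom
        invFun := fun φ => φ.comp ε.symm.toAlgHom
        left_inv := fun φ => by ext x; simp
        right_inv := fun φ => by ext x; simp }
    refine ⟨E.trans e, fun π => ?_⟩
    rw [he π]
    constructor
    · rintro ⟨σ, hσ⟩
      exact ⟨σ, fun φ => hσ (E φ)⟩
    · rintro ⟨σ, hσ⟩
      refine ⟨σ, fun φ => ?_⟩
      have := hσ (E.symm φ)
      simp only [Equiv.trans_apply, Equiv.apply_symm_apply] at this
      rw [← this]
      congr 1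
      ext x
      simp [E]
  · rw [dsc_eq L']
    rw [dsc_eq L] at h3
    rw [← NumberField.discr_eq_discr_of_ringEquiv L (ε : L ≃+* L')]
    exact h3

theorem quot_TTS {K Ω H : Type} [Field K] [NumberField K] [Field Ω] [Algebra K Ω]
    [IsAlgClosure K Ω] [Group H] [Finite H] {W : Subgroup H} (Z : ℝ)
    (hfin : (TTS K Ω H W Z).Finite) :
    Nat.card (Quot (fun L L' : TTS K Ω H W Z => Nonempty (L.1 ≃ₐ[K] L'.1))) * W.index =
      (TTS K Ω H W Z).ncard := by
  have : Finite (TTS K Ω H W Z) := hfin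
  rw [card_quot (T := TTS K Ω H W Z) (fun L L' => Nonempty (L.1 ≃ₐ[K] L'.1)) ?_ W.index ?_]
  · rfl
  · exact ⟨fun L => ⟨AlgEquiv.refl⟩, fun ⟨a⟩ => ⟨a.symm⟩, fun ⟨a⟩ ⟨b⟩ => ⟨a.trans b⟩⟩
  · intro L
    rw [← r.wc K Ω H W L.1 L.2.1 L.2.2.1, ← Nat.card_coe_set_eq]
    refine Nat.card_congr ⟨fun y => ⟨y.1.1, y.2⟩,
      fun y => ⟨⟨y.1, tt_isoS r L.2 y.2.some⟩, y.2⟩, fun y => rfl, fun y => rfl⟩

/-- up to isomorphism -/
theorem asymp_isoS (K : Type) [Field K] [NumberField K] (H : Type) [Group H] [Finite H]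
    (W U : Subgroup H) (hWU : W ≤ U) (hU : U.normalCore = ⊥)
    (hc : 8 * U.index * (U.index + 1) ≤ W.index)
    (hne : (Gal K (AlgebraicClosure K) H).Nonempty) {n : ℕ} (G : Subgroup (Equiv.Perm (Fin n)))
    (hG : IsC2WrS H W G) :
    ∃ c : ℝ, 0 < c ∧ Tendsto (fun X : ℝ =>
      (Nat.card (Quot (fun L L' : Cnt K G X => Nonempty (L.1 ≃ₐ[K] L'.1))) : ℝ) / X)
        atTop (𝓝 c) := by
  obtain ⟨hfin, c, hc0, hlim⟩ := asympS r K H W U hWU hU hc hne G hG
  have hpos : (0 : ℝ) < W.index := by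
    exact_mod_cast Nat.pos_of_ne_zero Subgroup.index_ne_zero_of_finite
  refine ⟨c / W.index, by positivity, ?_⟩
  have h := hlim.div_const (W.index : ℝ)
  refine h.congr' ?_
  filter_upwards [eventually_gt_atTop (0 : ℝ)] with X hX
  have hX' := hfin X hX
  rw [cnt_eqS r K hG] at hX' ⊢
  have hq := quot_TTS r (K := K) (Ω := AlgebraicClosure K) (H := H) (W := W) _ hX'
  rw [← hq]
  push_cast
  field_simp

end Pool.Agent.Q17.ML2
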