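import Pool.Agent.Q17.ML2.All

/-!
# Realizability and Malle's conjecture for `C₂ ≀ (H, H ⧸ W)`
-/

set_option autoImplicit false
set_option linter.unusedSectionVars false

open NumberField Filter Topology

namespace Pool.Agent.Q17.ML2

open Pool.Agent.TH444.ML (Cnt HasGp Gal)
open Pool.Agent.Q24.ML (Real)

variable (r : Parts)

theorem core_bot {H : Type} [Group H] {W U : Subgroup H} (hWU : W ≤ U) (hU : U.normalCore = ⊥) :
    W.normalCore = ⊥ := by
  rw [eq_bot_iff, ← hU]
  exact Subgroup.normalCore_mono hWU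

include r

theorem real_of_cntS (K : Type) [Field K] [NumberField K] {H : Type} [Group H] [Finite H]
    {W : Subgroup H} (hW : W.normalCore = ⊥) {n : ℕ} {G : Subgroup (Equiv.Perm (Fin n))}
    (hG : IsC2WrS H W G) (X : ℝ) (h : (Cnt K G X).Nonempty) : Real K H := by
  obtain ⟨L, hL⟩ := h
  rw [cnt_eqS r K hG] at hL
  obtain ⟨h1, h2, -⟩ := hL
  obtain ⟨M, hM, -⟩ := (r.wi r.dg K (AlgebraicClosure K) H W hW L).1 ⟨h1, h2⟩
  exact (Pool.Agent.Q24.ML.real_iff K (AlgebraicClosure K) H).2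
    ⟨_, ((r.dg K (AlgebraicClosure K) H W hW).1 M hM).2.2⟩

theorem real_group_of_cnt (hrg : S_RG) (K : Type) [Field K] [NumberField K] {H : Type} [Group H]
    [Finite H] {W : Subgroup H} {n : ℕ} {G : Subgroup (Equiv.Perm (Fin n))}
    (hG : IsC2WrS H W G) (X : ℝ) (h : (Cnt K G X).Nonempty) : Real K G := by
  obtain ⟨L, h1, h2, h3⟩ := h
  obtain ⟨hn, -⟩ := r.pg H W n G hG
  have hpos : 0 < W.index := Nat.pos_of_ne_zero Subgroup.index_ne_zero_of_finite
  have hfd : FiniteDimensional K L := FiniteDimensional.of_finrank_pos (by omega)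
  exact hrg K n G L hfd h2

end Pool.Agent.Q17.ML2
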