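import Pool.Agent.Q17.ML2.Core

/-!
# Examples and permutation groups
-/

set_option autoImplicit false
set_option linter.unusedSectionVars false

open NumberField Filter Topology

namespace Pool.Agent.Q17.ML2

open Pool.Agent.TH444.ML (Cnt HasGp Gal)
open Pool.Agent.Q24.ML (Real)

theorem real_unit (K : Type) [Field K] : Real K Unit :=
  ⟨K, inferInstance, inferInstance, inferInstance, inferInstance, ⟨by
    have : Subsingleton (K ≃ₐ[K] K) := ⟨fun σ τ => by
      ext x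
      exact (σ.commutes x).trans (τ.commutes x).symm⟩
    exact { toFun := fun _ => 1, invFun := fun _ => (), left_inv := fun _ => rfl,
            right_inv := fun _ => Subsingleton.elim _ _, map_mul' := fun _ _ => by simp }⟩⟩

theorem real_perm (K : Type) [Field K] [NumberField K] (m : ℕ) (hm : 120 ^ 3 ≤ m) :
    Real K (Equiv.Perm (Fin m)) :=
  ((Pool.Agent.Q24.ML.real_iff_prod K m hm).2 (real_unit K)).of_surj (MonoidHom.snd _ _)
    Prod.snd_surjective

/-- `S_m` acting on tuples. -/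
theorem tuples (hex : S_EX) (m k : ℕ) (hm : 12 ≤ m) (hk : 3 ≤ k) (hkm : k ≤ m) {n : ℕ}
    (G : Subgroup (Equiv.Perm (Fin n)))
    (h : ∃ f : Fin n ≃ (Fin k ↪ Fin m) × Bool, ∀ π : Equiv.Perm (Fin n),
      π ∈ G ↔ ∃ σ : Equiv.Perm (Fin m), ∀ i, (f (π i)).1 = (f i).1.trans σ.toEmbedding) :
    ∃ W U : Subgroup (Equiv.Perm (Fin m)), W ≤ U ∧ U.normalCore = ⊥ ∧
      8 * U.index * (U.index + 1) ≤ W.index ∧ IsC2WrS (Equiv.Perm (Fin m)) W G := by
  obtain ⟨f, hf⟩ := h
  have hsm : ∀ (σ : Equiv.Perm (Fin m)) (x : Fin k ↪ Fin m), σ • x = x.trans σ.toEmbedding :=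
    fun σ x => by ext i; rfl
  let x₀ : Fin k ↪ Fin m := Fin.castLEEmb hkm
  have htr : MulAction.IsPretransitive (Equiv.Perm (Fin m)) (Fin k ↪ Fin m) := by
    constructor
    intro x y
    let e : {j // j ∈ Set.range x} ≃ {j // j ∈ Set.range y} :=
      (Equiv.ofInjective x x.injective).symm.trans (Equiv.ofInjective y y.injective)
    refine ⟨e.extendSubtype, ?_⟩
    ext i
    rw [hsm]
    change ((e.extendSubtype (x i) : Fin m) : ℕ) = _
    rw [Equiv.extendSubtype_apply_of_mem e (x i) ⟨i, rfl⟩]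
    congr 1
    change ((Equiv.ofInjective y y.injective) ((Equiv.ofInjective x x.injective).symm ⟨x i, _⟩) :
      Fin m) = y i
    rw [Equiv.ofInjective_symm_apply]
    rfl
  have hG := CV (Equiv.Perm (Fin m)) (Fin k ↪ Fin m) x₀ n G f
    (by intro π; rw [hf]; simp only [hsm])
  let z : Fin m := ⟨0, by omega⟩
  obtain ⟨h1, h2, h3⟩ := hex m k hm hk hkm (MulAction.stabilizer (Equiv.Perm (Fin m)) x₀)
    (MulAction.stabilizer (Equiv.Perm (Fin m)) z) (by
      intro σ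
      rw [MulAction.mem_stabilizer_iff, hsm]
      constructor
      · intro h i hi
        have h4 := congrArg (fun t : Fin k ↪ Fin m => t ⟨i, hi⟩) h
        have h5 : x₀ ⟨i, hi⟩ = i := Fin.ext rfl
        change σ (x₀ ⟨i, hi⟩) = x₀ ⟨i, hi⟩ at h4
        rwa [h5] at h4
      · intro h
        ext i
        change ((σ (x₀ i) : Fin m) : ℕ) = _
        rw [h (x₀ i) i.2]) (by
      intro σ
      rw [MulAction.mem_stabilizer_iff]
      constructor
      · intro h i hi
        have : i = z := Fin.ext hi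
        rw [this]
        exact h
      · intro h
        exact h z rfl)
  exact ⟨_, _, h1, h2, h3, hG⟩

/-- `X × S_m` acting on `X/Y × S_m`. -/
theorem prods (hpr : S_PR) (X : Type) [Group X] [Finite X] (Y : Subgroup X) (m : ℕ)
    (hY : Y.normalCore = ⊥) (hm : 10 ≤ m) (hYm : Y.index ≤ m) {n : ℕ}
    (G : Subgroup (Equiv.Perm (Fin n)))
    (h : ∃ f : Fin n ≃ ((X ⧸ Y) × Equiv.Perm (Fin m)) × Bool, ∀ π : Equiv.Perm (Fin n),
      π ∈ G ↔ ∃ h : X × Equiv.Perm (Fin m), ∀ i, (f (π i)).1 = (h.1 • (f i).1.1, h.2 * (f i).1.2)) :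
    ∃ W U : Subgroup (X × Equiv.Perm (Fin m)), W ≤ U ∧ U.normalCore = ⊥ ∧
      8 * U.index * (U.index + 1) ≤ W.index ∧ IsC2WrS (X × Equiv.Perm (Fin m)) W G := by
  obtain ⟨f, hf⟩ := h
  let act : MulAction (X × Equiv.Perm (Fin m)) ((X ⧸ Y) × Equiv.Perm (Fin m)) :=
    { smul := fun h x => (h.1 • x.1, h.2 * x.2)
      one_smul := fun x => by
        change ((1 : X) • x.1, (1 : Equiv.Perm (Fin m)) * x.2) = x
        rw [one_smul, one_mul]
      mul_smul := fun g h x => by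
        change ((g.1 * h.1) • x.1, (g.2 * h.2) * x.2) = (g.1 • (h.1 • x.1), g.2 * (h.2 * x.2))
        rw [mul_smul, mul_assoc] }
  have hsm : ∀ (h : X × Equiv.Perm (Fin m)) (x : (X ⧸ Y) × Equiv.Perm (Fin m)),
      h • x = (h.1 • x.1, h.2 * x.2) := fun _ _ => rfl
  let x₀ : (X ⧸ Y) × Equiv.Perm (Fin m) := ((1 : X), 1)
  have htr : MulAction.IsPretransitive (X × Equiv.Perm (Fin m))
      ((X ⧸ Y) × Equiv.Perm (Fin m)) := by
    constructor
    intro x y
    obtain ⟨g, hg⟩ := MulAction.exists_smul_eq X x.1 y.1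
    refine ⟨(g, y.2 * x.2⁻¹), ?_⟩
    rw [hsm]
    refine Prod.ext hg ?_
    simp
  have hG := CV (X × Equiv.Perm (Fin m)) ((X ⧸ Y) × Equiv.Perm (Fin m)) x₀ n G f hf
  have hst : MulAction.stabilizer (X × Equiv.Perm (Fin m)) x₀ = Y.prod ⊥ := by
    ext ⟨x, σ⟩
    rw [MulAction.mem_stabilizer_iff, hsm, Subgroup.mem_prod, Subgroup.mem_bot]
    change ((x • ((1 : X) : X ⧸ Y)), σ * 1) = (((1 : X) : X ⧸ Y), 1) ↔ _
    rw [Prod.mk.injEq, mul_one]
    refine and_congr ?_ Iff.rfl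
    have h1 := MulAction.stabilizer_quotient Y
    have h2 : x ∈ MulAction.stabilizer X ((1 : X) : X ⧸ Y) ↔ x ∈ Y := by rw [h1]
    exact h2
  rw [hst] at hG
  obtain ⟨U, h1, h2, h3⟩ := hpr X Y m hY hm hYm
  exact ⟨_, U, h1, h2, h3, hG⟩

end Pool.Agent.Q17.ML2
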