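import Pool.Agent.Q17.ML2.Ex
import Pool.Agent.Q142.CA_SPL
import Pool.Agent.Q142.CA_SV
import Pool.Agent.Q223.CA_NF
import Pool.Agent.Q265.CA_E1
import Pool.Agent.Q144.CA_SB
import Pool.Agent.Q65.CA_BS
import Pool.Agent.Q178.CA_DG
import Pool.Agent.Q277.ML2.WI
import Pool.Agent.Q162.CA_MU
import Pool.Agent.Q186.CA.WC
import Pool.Agent.Q259.CA_FG
import Pool.Agent.Q110.CA_PG
import Pool.Agent.Q110.CA_EX
import Pool.Agent.Q158.CA_PR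
import Pool.Agent.Q149.CA_BL
import Pool.Agent.Q190.CA.RG

set_option autoImplicit false

namespace Pool.Agent.Q17.ML2

theorem parts : Parts :=
  ⟨Pool.Agent.Q142.CA.t_SPL, Pool.Agent.Q142.CA.t_SV, Pool.Agent.Q223.CA_NF.t_NF,
    Pool.Agent.Q265.CA_E1.t_E1, Pool.Agent.Q144.CA.t_SB, Pool.Agent.Q65.CA_BS.t_BS, Pool.Agent.Q178.CA.t_DG,
    Pool.Agent.Q277.ML2.t_WI, Pool.Agent.Q162.CAMU.t_MU, Pool.Agent.Q17.ML2.t_WC,
    Pool.Agent.Q259.CA_FG.t_FG, Pool.Agent.Q110.CAPG.t_PG⟩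

theorem bl : S_BL := Pool.Agent.Q149.CABL.t_BL
theorem rg : S_RG := Pool.Agent.Q190.CA.t_RG
theorem ex : S_EX := Pool.Agent.Q110.CAEX.t_EX
theorem pr : S_PR := Pool.Agent.Q158.CA.t_PR

end Pool.Agent.Q17.ML2
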