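import Pool.Agent.TH444.ML.All
import Pool.Agent.TH9.J3098

/-!
# Project CA: Malle's conjecture for `C₂ ≀ (H acting on H ⧸ W)`: definitions and statements

The library `Pool/Agent/TH444/ML` proves the asymptotic formula for `C₂ ≀ H`, `H` in its regular
action, acting on `H × {0, 1}`. Here `H` acts on `H ⧸ W`, where `W` is a subgroup with trivial normal
core. `K` is a number field and `Ω` an algebraic closure. The extensions `L` of `K` with group
`C₂ ≀ (H, H ⧸ W)` are the quadratic extensions `L = M(√α)`, where `M/K` has degree `[H : W]` and the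
Galois group `H`, acting on the embeddings of `M` as on `H ⧸ W`, such that the conjugates of `α` are
independent modulo squares in the normal closure of `M`.
-/

set_option autoImplicit false

open NumberField Filter Topology

namespace Pool.Agent.Q17.ML2

open Pool.Agent.TH444.ML (dsc badId DiscQuad KumP Gal)

/-- The wreath product `C₂ ≀ H` acting on `(H ⧸ W) × Bool`. -/
def WrS (H : Type) [Group H] (W : Subgroup H) : Set (Equiv.Perm ((H ⧸ W) × Bool)) :=
  {π | ∃ h : H, ∀ x : (H ⧸ W) × Bool, (π x).1 = h • x.1}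

/-- `L/K` has Galois group `C₂ ≀ (H, H ⧸ W)`, as a permutation group on the embeddings. -/
def IsWrS (K Ω : Type) [Field K] [Field Ω] [Algebra K Ω] (H : Type) [Group H] (W : Subgroup H)
    (L : IntermediateField K Ω) : Prop :=
  ∃ e : (L →ₐ[K] Ω) ≃ (H ⧸ W) × Bool, ∀ π : Equiv.Perm ((H ⧸ W) × Bool), π ∈ WrS H W ↔
    ∃ σ : Ω ≃ₐ[K] Ω, ∀ φ : L →ₐ[K] Ω, e (σ.toAlgHom.comp φ) = π (e φ)

/-- The extensions `M` of `K` in `Ω` with Galois group `H`, acting on the embeddings of `M` as on
`H ⧸ W`. -/
def GalS (K Ω : Type) [Field K] [Field Ω] [Algebra K Ω] (H : Type) [Group H] (W : Subgroup H) :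
    Set (IntermediateField K Ω) :=
  {M | FiniteDimensional K M ∧ ∃ e : (M →ₐ[K] Ω) ≃ H ⧸ W, ∀ π : Equiv.Perm (H ⧸ W),
    (∃ h : H, ∀ x : H ⧸ W, π x = h • x) ↔
      ∃ σ : Ω ≃ₐ[K] Ω, ∀ φ : M →ₐ[K] Ω, e (σ.toAlgHom.comp φ) = π (e φ)}

/-- The subfields `M` of `L` which show that `L/K` has the group `C₂ ≀ (H, H ⧸ W)`. -/
def MidS (K Ω : Type) [Field K] [Field Ω] [Algebra K Ω] (H : Type) [Group H] (W : Subgroup H)
    (L M : IntermediateField K Ω) : Prop :=
  M ∈ GalS K Ω H W ∧ M ≤ L ∧ FiniteDimensional K L ∧ Module.finrank K L = 2 * Module.finrank K M ∧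
    Module.finrank K (IntermediateField.normalClosure K L Ω) =
      2 ^ Module.finrank K M * Module.finrank K (IntermediateField.normalClosure K M Ω)

/-! ### The sieve -/

/-- SPL: totally split primes are numerous, also for extensions which are not normal. PROOF. Let `N`
be the normal closure of `M` over `K` (for instance
`IntermediateField.normalClosure K M (AlgebraicClosure M)` with the natural map `M → N`; it is a
number field, Galois over `K`). By `Pool.Agent.TH857.J3095.splitSum` the sum over the primes with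
`[N : K]` primes above them in `N` diverges. Such a prime `p` has `[M : K]` primes above it in `M`:
in `∑ e f = [N : K]` all `e`, `f` are `1`; each prime `P` of `M` over `p` lies below a prime `Q` of `N`,
and `e (P / p)`, `f (P / p)` divide `e (Q / p)`, `f (Q / p)`, hence are `1`, and `∑ e f = [M : K]` is the
number of primes over `p`. So the sum for `M` has more terms and diverges. -/
def S_SPL : Prop :=
  ∀ (K M : Type) [Field K] [NumberField K] [Field M] [NumberField M] [Algebra K M],
    ¬ Summable (fun p : {p : Ideal (𝓞 K) // p.IsPrime ∧ p ≠ ⊥ ∧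
      Set.ncard (p.primesOver (𝓞 M)) = Module.finrank K M} => (1 : ℝ) / Ideal.absNorm p.1)

/-- The sieve for all extensions `M/K`. -/
def SieveS : Prop :=
  ∀ (K M : Type) [Field K] [NumberField K] [Field M] [NumberField M] [Algebra K M],
    Tendsto (fun Z : ℝ =>
      (Set.ncard {𝔡 : Ideal (𝓞 M) | 𝔡 ∈ badId K M ∧ (Ideal.absNorm 𝔡 : ℝ) ≤ Z} : ℝ) / Z)
      atTop (𝓝 0)

/-- SV. PROOF. Copy of `Pool.Agent.TH713.J3096.sieve` (its last theorem; `sieveFin` does not need that
`M/K` is Galois), with `SPL` in place of `SplitSum`. -/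
def S_SV : Prop := S_SPL → SieveS

/-! ### Kummer theory -/

/-- NF. PROOF. As `Pool.Agent.TH111.J3097.notFull`, over the field `N = normalClosure K M Ω` in place
of `M`: for all embeddings `φ : M → Ω` choose `η φ` with `η φ ^ 2 = φ α` (an element of `N`). If no
product of the `φ α`, `φ ∈ S`, `S ≠ ∅`, is the square of an element of `N`, then
`[N(η) : N] = 2 ^ #(M →ₐ[K] Ω) = 2 ^ [M : K]` by `Pool.Agent.TH111.J3097.finrank_mq'`, and `N(η)` is the
normal closure of `L = M(s)` over `K` (every embedding of `M` in `Ω` extends to an automorphism of `Ω`;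
`AlgHom.card` for the number of embeddings). -/
def S_NF : Prop :=
  ∀ (K Ω : Type) [Field K] [NumberField K] [Field Ω] [Algebra K Ω] [IsAlgClosure K Ω]
    (M : IntermediateField K Ω) [FiniteDimensional K M]
    (L : IntermediateField K Ω), M ≤ L → ∀ (α : M) (s : Ω), α ≠ 0 →
    s ^ 2 = (α : Ω) → s ∉ M → L = M ⊔ IntermediateField.adjoin K {s} →
    Module.finrank K (IntermediateField.normalClosure K L Ω) ≠
      2 ^ Module.finrank K M * Module.finrank K (IntermediateField.normalClosure K M Ω) →
    ∃ S : Finset (M →ₐ[K] Ω), S.Nonempty ∧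
      ∃ b ∈ IntermediateField.normalClosure K M Ω, ∏ φ ∈ S, φ α = b ^ 2

/-- The map on the rings of integers given by an embedding. -/
noncomputable def mp {K M N : Type} [Field K] [Field M] [Field N] [Algebra K M] [Algebra K N]
    (φ : M →ₐ[K] N) : 𝓞 M →+* 𝓞 N := RingOfIntegers.mapRingHom (φ : M →+* N)

/-- E1: primes which are totally split in `M`. `N/K` is Galois, all `[M : K]` embeddings of `M` go to
`N`, and an automorphism of `N` which fixes all of them is trivial. PROOF. `P.comap (mp φ)` is a prime
over `p`. The map `φ ↦ P.comap (mp φ)` from the embeddings to the primes of `M` over `p` is surjective: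
fix one embedding `φ₀` (there is one as `[M : K] ≥ 1`); a prime `Q` of `M` over `p` is `P'.comap (mp φ₀)`
for some prime `P'` of `N` over `p` (lying over, for the integral extension `mp φ₀`), and
`P' = P.comap (σ)` for some automorphism `σ` of `N/K` (`Ideal.exists_comap_galRestrict_eq`), so
`Q = P.comap (mp (σ φ₀))`. Both sets have `[M : K]` elements, so the map is bijective: this is the second
claim. Third claim: let `σ` be an element of the decomposition group of `P` (`P.comap σ = P`). Then
`P.comap (mp (σ φ)) = P.comap (mp φ)`, so `σ φ = φ` for all `φ` and `σ = 1`. So the decomposition group is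
trivial, the primes of `N` over `p` correspond bijectively to the `σ` (`σ ↦ P.comap σ` is injective and
surjective) and there are `[N : K]` of them; as `∑ e f = [N : K]`, `e = 1` for all. As
`e (P / p) = e (P / Q) e (Q / p)`, `Q = P.comap (mp φ)`, also `e (P / Q) = 1` for the extension of rings
`mp φ`. So the multiplicity of `P` in `I.map (mp φ)` is the multiplicity of `Q` in `I`
(write `I = Q ^ k J`, `Q ∤ J`; then `P ∤ J.map`, and `P` divides `Q.map` exactly once). -/
def S_E1 : Prop :=
  ∀ (K M N : Type) [Field K] [NumberField K] [Field M] [NumberField M] [Algebra K M]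
    [Field N] [NumberField N] [Algebra K N] [IsGalois K N],
    Nat.card (M →ₐ[K] N) = Module.finrank K M →
    (∀ σ : N ≃ₐ[K] N, (∀ φ : M →ₐ[K] N, σ.toAlgHom.comp φ = φ) → σ = 1) →
    ∀ p : Ideal (𝓞 K), p.IsPrime → p ≠ ⊥ →
    Set.ncard (p.primesOver (𝓞 M)) = Module.finrank K M →
    ∀ P : Ideal (𝓞 N), P ∈ p.primesOver (𝓞 N) →
      (∀ φ : M →ₐ[K] N, P.comap (mp φ) ∈ p.primesOver (𝓞 M)) ∧
      (∀ φ ψ : M →ₐ[K] N, P.comap (mp φ) = P.comap (mp ψ) → φ = ψ) ∧
      (∀ (φ : M →ₐ[K] N) (I : Ideal (𝓞 M)), I ≠ ⊥ →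
        Pool.Agent.TH9.J3098.v P (I.map (mp φ)) = Pool.Agent.TH9.J3098.v (P.comap (mp φ)) I)

/-- The squarefree part of an `α` with a product of conjugates a square is bad. -/
def SqBadS : Prop :=
  ∀ (K Ω : Type) [Field K] [NumberField K] [Field Ω] [Algebra K Ω] [IsAlgClosure K Ω]
    (M : IntermediateField K Ω) [FiniteDimensional K M] [NumberField M] (α : 𝓞 M)
    (𝔡 𝔠 : Ideal (𝓞 M)) (S : Finset (M →ₐ[K] Ω)), α ≠ 0 →
    Squarefree 𝔡 → Ideal.span {α} = 𝔡 * 𝔠 ^ 2 → S.Nonempty →
    (∃ b ∈ IntermediateField.normalClosure K M Ω, ∏ φ ∈ S, φ (α : M) = b ^ 2) → 𝔡 ∈ badId K M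

/-- SB. PROOF. As `Pool.Agent.TH9.J3098.sqBad`. `N = normalClosure K M Ω` is a number field, Galois over
`K`; the embeddings `φ : M → Ω` go to `N` (`φ'`), and an automorphism of `N` which fixes all `φ'` is trivial
(`N` is generated by the images), so E1 applies. Let `p` be a prime of `K` with `[M : K]` primes in `M`,
exactly one of which, `Q`, divides `𝔡`. Let `φ₀ ∈ S`, and let `P` be a prime of `N` with
`P.comap (mp φ₀') = Q` (lying over). For `φ ∈ S`, `φ ≠ φ₀`, the prime `P.comap (mp φ')` is over `p` and
different from `Q`, so it does not divide `𝔡`. By E1 the multiplicity of `P` in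
`∏_{φ ∈ S} span {φ' α} = ∏_{φ ∈ S} (𝔡 𝔠²).map (mp φ')` is `1` + an even number, but it is the multiplicity of
`P` in `span {b} ^ 2` (`b` is integral), a contradiction. (`v_mul`, `v_prod`, `v_sqf`, `v_zero` of J3098.) -/
def S_SB : Prop := S_E1 → SqBadS

/-- The quadratic extensions of `M` with small normal closure over `K` are few. -/
def BadSmallS : Prop :=
  ∀ (K Ω : Type) [Field K] [NumberField K] [Field Ω] [Algebra K Ω] [IsAlgClosure K Ω]
    (M : IntermediateField K Ω) [FiniteDimensional K M],
    Tendsto (fun Y : ℝ => (Set.ncard {L : IntermediateField K Ω | M ≤ L ∧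
      Module.finrank K L = 2 * Module.finrank K M ∧
      Module.finrank K (IntermediateField.normalClosure K L Ω) ≠
        2 ^ Module.finrank K M * Module.finrank K (IntermediateField.normalClosure K M Ω) ∧
      dsc L ≤ Y * dsc M ^ 2} : ℝ) / Y)
      atTop (𝓝 0)

/-- BS. PROOF. Copy of `Pool.Agent.TH521.J3102` with `NF`, `SqBadS`, `SieveS` in place of `NotFull`,
`SqBad`, `Sieve` (nothing else there uses that `M/K` is Galois). -/
def S_BS : Prop := DiscQuad → KumP → S_NF → SqBadS → SieveS → BadSmallS

/-! ### Galois groups -/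

/-- Description of the extensions with group `C₂ ≀ (H, H ⧸ W)`. -/
def WrIffS : Prop :=
  ∀ (K Ω : Type) [Field K] [NumberField K] [Field Ω] [Algebra K Ω] [IsAlgClosure K Ω]
    (H : Type) [Group H] [Finite H] (W : Subgroup H), W.normalCore = ⊥ →
    ∀ L : IntermediateField K Ω,
    (Module.finrank K L = 2 * W.index ∧ IsWrS K Ω H W L) ↔ ∃ M, MidS K Ω H W L M

/-- The degrees of the fields in `GalS`. -/
def DegS : Prop :=
  ∀ (K Ω : Type) [Field K] [NumberField K] [Field Ω] [Algebra K Ω] [IsAlgClosure K Ω]
    (H : Type) [Group H] [Finite H] (W : Subgroup H), W.normalCore = ⊥ →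
    (∀ M ∈ GalS K Ω H W, Module.finrank K M = W.index ∧
      Module.finrank K (IntermediateField.normalClosure K M Ω) = Nat.card H ∧
      IntermediateField.normalClosure K M Ω ∈ Gal K Ω H) ∧
    ((Gal K Ω H).Nonempty → (GalS K Ω H W).Nonempty)

/-- DG. PROOF. `act`, `ker_act`, `card_quot`, `imP`, `ncard_imP` are in `Pool/Agent/TH365/J3099.lean`.
`[M : K]` is the number of embeddings (`AlgHom.card`), which is `[H : W]` by `e`. The permutations
`x ↦ h • x` of `H ⧸ W` are different for different `h` (the kernel of `H → Perm (H ⧸ W)` is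
`W.normalCore`, see `Subgroup.normalCore_eq_ker`), so `imP M e` has `|H|` elements and
`ncard_imP` gives the degree of the normal closure `N`. The map `Gal(Ω/K) → H`, `σ ↦` the `h` with
`e (σ φ) = h • e φ` is a surjective homomorphism with kernel `(act M).ker = N.fixingSubgroup`, and
restriction to `N` is surjective with the same kernel, so `Gal(N/K) ≃* H`. Last claim: let `N` be
Galois over `K` in `Ω` with `g : Gal(N/K) ≃* H` and `M` the fixed field of `W` (of `W.comap` in
`Gal(N/K)`, mapped to `Ω`): the embeddings of `M` are the restrictions of the automorphisms of `N` (or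
of `Ω`), `σ|M = τ|M` iff `g σ W = g τ W`, which gives `e : (M →ₐ[K] Ω) ≃ H ⧸ W`. -/
def S_DG : Prop := DegS

/-- WI. PROOF. Compare `Pool.Agent.TH365.J3099.forward`, `backward`; `act`, `ker_act`, `imP`,
`ncard_imP` there can be used. `WrS H W` has `2 ^ [H : W] * |H|` elements (see `ncard_Wr2` there; `H` acts
faithfully on `H ⧸ W`). (⇒) From `e`: for `σ` in `Gal(Ω/K)` there is a unique `h σ ∈ H` with
`(e (σ φ)).1 = h σ • (e φ).1` for all `φ`; `h` is a surjective homomorphism. Let `x₀ = (e L.val).1`, `U` the
subgroup of all `σ` with `h σ • x₀ = x₀`, and `M` its fixed field. `L.fixingSubgroup ≤ U`, so `U` is open,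
`M.fixingSubgroup = U`, `M ≤ L`, `[M : K] = (index of U) = [H : W]`, `[L : K] = 2 [M : K]`. The embeddings of
`M` are the classes of `Gal(Ω/K)` modulo `U`, that is, the points of `H ⧸ W`: `σ|M ↦ h σ • x₀`. This gives
`e_M` with `e_M (σ φ) = h σ • e_M φ`, and `M ∈ GalS` as `h` is surjective. The degree of the normal
closure of `L` is `#(imP L e) = # WrS = 2 ^ [M : K] |H|`, and that of `M` is `|H|` by `DegS`.
(⇐) Let `e_M` be given. Restriction `r` from the embeddings of `L` to those of `M` has fibres with two
elements (`[L : M] = 2`: `AlgHom.card` over `M`, or all fibres have the same size as the Galois group is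
transitive on the embeddings of `M`). A choice of bijections of the fibres with `Bool` gives
`e : (L →ₐ[K] Ω) ≃ (H ⧸ W) × Bool` with `(e φ).1 = e_M (r φ)`. Then `imP L e ⊆ WrS H W`, and both have
`2 ^ [M : K] |H|` elements. -/
def S_WI : Prop := DegS → WrIffS

/-- Uniqueness of `M`. -/
def MidUniqueS : Prop :=
  ∀ (K Ω : Type) [Field K] [NumberField K] [Field Ω] [Algebra K Ω] [IsAlgClosure K Ω]
    (H : Type) [Group H] [Finite H] (W : Subgroup H), W.normalCore = ⊥ →
    ∀ L M M' : IntermediateField K Ω, MidS K Ω H W L M → MidS K Ω H W L M' → M = M'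

/-- MU. PROOF. Let `B` be the equivalence relation on the embeddings of `L` given by equal
restrictions to `M` (classes of two elements), and `B'` the same for `M'`. The group `Γ` of the
permutations of the embeddings of `L` given by `Gal(Ω/K)` preserves `B` and has
`2 ^ [M : K] [normal closure of M : K]` elements (`ker_act`, `card_quot` of J3099), and it maps onto a group
with `[normal closure of M : K]` elements on the classes of `B`, so the kernel of this map has
`2 ^ [M : K]` elements and consists of all permutations which preserve every class of `B`. In particular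
`Γ` contains the transposition `(φ ψ)` if `{φ, ψ}` is a class of `B`. If `{φ, χ}` is a class of `B'` and
`χ ≠ ψ`, the transposition `(φ ψ)` maps this class to `{ψ, χ}`, which is not a class of `B'` as it meets
`{φ, χ}`; contradiction. So `B = B'`. With `φ = L.val` and `ψ` the other element of its class, `M` is
the set of all `y ∈ L` with `φ y = ψ y` (this subfield contains `M`, is not `L`, and `[L : M] = 2`), and the
same holds for `M'`. -/
def S_MU : Prop := DegS → MidUniqueS

/-- There are `[H : W]` fields in `Ω` isomorphic to an extension with group `C₂ ≀ (H, H ⧸ W)`. -/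
def WrConjS : Prop :=
  ∀ (K Ω : Type) [Field K] [NumberField K] [Field Ω] [Algebra K Ω] [IsAlgClosure K Ω]
    (H : Type) [Group H] [Finite H] (W : Subgroup H) (L : IntermediateField K Ω),
    Module.finrank K L = 2 * W.index → IsWrS K Ω H W L →
    Set.ncard {L' : IntermediateField K Ω | Nonempty (L ≃ₐ[K] L')} = W.index

/-- WC. PROOF. As `Pool.Agent.TH928.J3106.wrConj` (regular action). The fields isomorphic to `L` are the
images of the `2 [H : W]` embeddings of `L`. Two embeddings `φ`, `ψ` have the same image iff they have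
the same stabilizer in `Gal(Ω/K)`, iff (by `e`) their points have the same stabilizer in the group `WrS`.
The stabilizer of `(x, b)` contains all permutations which preserve the classes `{y} × Bool` and fix
`(x, b)` (take `h = 1`), so it fixes exactly `(x, b)` and `(x, !b)`, and these two have the same stabilizer.
So every field comes from exactly two embeddings. -/
def S_WC : Prop := WrConjS

/-- Few extensions with the group `(H, H ⧸ W)`. -/
def FewGalS : Prop :=
  ∀ (K Ω : Type) [Field K] [NumberField K] [Field Ω] [Algebra K Ω] [IsAlgClosure K Ω]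
    (H : Type) [Group H] [Finite H] (W U : Subgroup H), W ≤ U → U.normalCore = ⊥ →
    8 * U.index * (U.index + 1) ≤ W.index →
    Summable (fun M : GalS K Ω H W => (dsc M.1) ^ (-(1 / 4) : ℝ))

/-- FG. PROOF. As `Pool.Agent.TH228.J3101.fewGalRel` (with `|H|` replaced by `[H : W]`). `u = [H : U]`.
Let `M ∈ GalS`, `N` its normal closure. From `e` one gets (as in DG) a surjective homomorphism
`h : Gal(Ω/K) → H` with kernel `N.fixingSubgroup` and `e (σ φ) = h σ • e φ`. Write `e M.val = a W`; then
`M.fixingSubgroup = h⁻¹(a W a⁻¹)`. Let `F` be the fixed field of `h⁻¹(a U a⁻¹)`: `F ≤ M`, `[F : K] = u`, and the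
normal closure of `F` has the fixing subgroup `h⁻¹(core of U) = ker h`, so it is `N`. So `M` is one of
the at most `2 ^ |H|` intermediate fields of `normalClosure K F Ω` (degree `|H|`), and
`dsc F ^ ([H : W] / u) ≤ dsc M` (see the tower estimate in J3101), so
`dsc M ^ (-1/4) ≤ dsc F ^ (-2 (u + 1))` (`8 u (u + 1) ≤ [H : W]`, `dsc F ≥ 1`). The sum over all `F` of degree `u` of
`dsc F ^ (-2 (u + 1))` converges by `HermiteRel` (`Pool.Agent.TH979.J3100.hermiteRel`; there are at most
`C Z ^ (2 u)` fields with `dsc F ≤ Z`), see the end of J3101. -/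
def S_FG : Prop := DegS → Pool.Agent.TH444.ML.HermiteRel → FewGalS

/-! ### Permutation groups -/

/-- `G ≤ S_n` is, up to a bijection of `{1, ..., n}` with `(H ⧸ W) × {0, 1}`, the wreath product
`C₂ ≀ (H, H ⧸ W)`. -/
def IsC2WrS (H : Type) [Group H] (W : Subgroup H) {n : ℕ} (G : Subgroup (Equiv.Perm (Fin n))) :
    Prop :=
  ∃ f : Fin n ≃ (H ⧸ W) × Bool, ∀ π : Equiv.Perm (Fin n),
    π ∈ G ↔ ∃ h : H, ∀ i, (f (π i)).1 = h • (f i).1

/-- PG. PROOF. As in `Pool/Agent/TH444/ML/Perm.lean` and `Fin.lean` (regular action). If the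
transposition `(a b)` is in `G` and `a`, `b` are in different blocks `x`, `y`, then `h • x = y`, but the
other point of the block `x` is fixed, so `h • x = x`. All blocks are conjugate as `H` is transitive on
`H ⧸ W`. Last part: as `hasGp_iff`. -/
def S_PG : Prop :=
  ∀ (H : Type) [Group H] [Finite H] (W : Subgroup H) (n : ℕ) (G : Subgroup (Equiv.Perm (Fin n))),
    IsC2WrS H W G →
    n = 2 * W.index ∧
    IsLeast {k : ℕ | ∃ g ∈ G, g ≠ 1 ∧ k = Pool.Agent.TH444.ML.ind g} 1 ∧
    (∀ g g' : G, Pool.Agent.TH444.ML.ind g.1 = 1 → Pool.Agent.TH444.ML.ind g'.1 = 1 →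
      IsConj g g') ∧
    (∀ (K : Type) [Field K] (L : IntermediateField K (AlgebraicClosure K)),
      Pool.Agent.TH444.ML.HasGp K G L ↔ IsWrS K (AlgebraicClosure K) H W L)

/-- EX. PROOF. `W` = the permutations which fix `0, ..., k - 1`, `U` = those which fix `0`. `U` has
index `n` (orbit-stabilizer), its normal core fixes all points; `W` has index
`n (n - 1) ⋯ (n - k + 1) ≥ n (n - 1) (n - 2) ≥ 8 n (n + 1)` for `n ≥ 12` (for `k ≥ 3`; it is enough to count the
triples `(σ 0, σ 1, σ 2)`: `W` is contained in the stabilizer of `0, 1, 2`). -/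
def S_EX : Prop :=
  ∀ n k : ℕ, 12 ≤ n → 3 ≤ k → k ≤ n → ∀ W U : Subgroup (Equiv.Perm (Fin n)),
    (∀ σ, σ ∈ W ↔ ∀ i : Fin n, (i : ℕ) < k → σ i = i) →
    (∀ σ, σ ∈ U ↔ ∀ i : Fin n, (i : ℕ) = 0 → σ i = i) →
    W ≤ U ∧ U.normalCore = ⊥ ∧ 8 * U.index * (U.index + 1) ≤ W.index

/-- PR. PROOF. `U = Y × (stabilizer of one point)` has index `[X : Y] n`, its normal core is the product
of the normal cores, trivial for `n ≥ 2`. The index of `W = Y × 1` is `[X : Y] n!`, and
`8 c n (c n + 1) ≤ c n!` for `c = [X : Y] ≤ n`, `n ≥ 10`: `8 n (n ^ 2 + 1) ≤ n!`. -/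
def S_PR : Prop :=
  ∀ (X : Type) [Group X] [Finite X] (Y : Subgroup X) (n : ℕ), Y.normalCore = ⊥ → 10 ≤ n →
    Y.index ≤ n → ∃ U : Subgroup (X × Equiv.Perm (Fin n)),
      Y.prod ⊥ ≤ U ∧ U.normalCore = ⊥ ∧
      8 * U.index * (U.index + 1) ≤ (Y.prod (⊥ : Subgroup (Equiv.Perm (Fin n)))).index

end Pool.Agent.Q17.ML2
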